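import Pool.Agent.H86.DB.Targets

/-!
# Row PALL of the board `db_modules`: the partition bound
-/

set_option autoImplicit false

open Module MvPolynomial

namespace Pool.Agent.H85.DB

open Pool.Agent.H12.Defect Pool.Agent.H15.Defect Pool.Agent.H15.ER Pool.Agent.H86.DB
open Pool.Agent.H14.RF hiding tr

universe u

/-- The maximal ideal generates. -/
theorem gens {k : Type u} [Field k] {A : Type u} [CommRing A] [Algebra k A] [Module.Finite k A]
    (α : A →ₐ[k] k) : ∃ (m : ℕ) (x : Fin m → A), (∀ i, α (x i) = 0) ∧
      Algebra.adjoin k (Set.range x) = ⊤ := by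
  obtain ⟨b⟩ : Nonempty (Basis (Fin (finrank k (LinearMap.ker α.toLinearMap))) k
    (LinearMap.ker α.toLinearMap)) := ⟨Module.finBasis _ _⟩
  refine ⟨_, fun i => (b i : A), fun i => ?_, ?_⟩
  · exact (b i).2
  · rw [Algebra.eq_top_iff]
    intro a
    have h1 : a - algebraMap k A (α a) ∈ LinearMap.ker α.toLinearMap := by
      rw [LinearMap.mem_ker, AlgHom.toLinearMap_apply, map_sub, AlgHom.commutes]
      simp
    have h2 : ∀ z : LinearMap.ker α.toLinearMap,
        (z : A) ∈ Algebra.adjoin k (Set.range fun i => (b i : A)) := by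
      intro z
      rw [← b.sum_repr z, AddSubmonoidClass.coe_finsetSum]
      refine Subalgebra.sum_mem _ fun i _ => ?_
      rw [Submodule.coe_smul]
      have h5 : (b i : A) ∈ Algebra.adjoin k (Set.range fun i => (b i : A)) :=
        Algebra.subset_adjoin (Set.mem_range_self i)
      exact Subalgebra.smul_mem _ h5 _
    have h3 := h2 ⟨_, h1⟩
    have h4 := Subalgebra.add_mem _ h3
      (Subalgebra.algebraMap_mem (Algebra.adjoin k (Set.range fun i => (b i : A))) (α a))
    simpa using h4

theorem pf_PALL (hP : T_PE) (hS : T_SUPA) (hR : T_REC.{u}) : T_PALL.{u} := by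
  obtain ⟨E, hE, hEP⟩ := hP
  suffices H : ∀ (k : Type u) [Field k] [IsAlgClosed k] (n : ℕ) (A : Type u) [CommRing A]
      [Algebra k A] [Module.Finite k A], finrank k A = n →
      Dle k A (Fintype.card (Nat.Partition (finrank k A))) by
    intro k _ _ A _ _ _
    exact H k _ A rfl
  intro k _ _ n
  induction n using Nat.strong_induction_on with
  | _ n ih =>
    intro A _ _ _ hn
    rcases subsingleton_or_nontrivial A with hA | hA
    · exact dle_subsingleton.mono (Nat.zero_le _)
    obtain ⟨α⟩ := exists_point (k := k) (A := A)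
    rcases local_or_split α with ⟨c, hc⟩ | ⟨A₁, A₂, _, _, _, _, _, _, _, _, ⟨e⟩⟩
    · obtain ⟨m, x, hx, hx'⟩ := gens α
      exact (hR E hE k A α c m x hc hx hx').mono (hEP m _)
    · have hfr : finrank k A = finrank k A₁ + finrank k A₂ := by
        rw [← Module.finrank_prod]
        exact LinearEquiv.finrank_eq e.toLinearEquiv
      have hp1 := Module.finrank_pos (R := k) (M := A₁)
      have hp2 := Module.finrank_pos (R := k) (M := A₂)
      have h1 := ih _ (by omega) A₁ rfl
      have h2 := ih _ (by omega) A₂ rfl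
      rw [hfr]
      exact ((h1.prod h2).of_equiv e.symm).mono (hS _ _ hp1 hp2)

end Pool.Agent.H85.DB
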